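import Pool.Agent.H983R2.ONJ.Model
import Pool.Agent.Results.MP_8be4c0_mp.MassLowerBound
import Pool.Agent.U153.Nv5

/-!
# Two-dimensional N-vector models, N ≥ 3: decay at moderate distances

For every exponentially decaying ferromagnetic coupling `J` on `ℤ²` there are constants `c, C`
such that for every `N ≥ 3`, every `β > 0` and every distance `r` with
`log r ≥ C (1 + β) log (2 + β)` the spin correlations are at most
`exp (-c min (log r, N (log r)² / (1 + β²)))`.
-/

set_option autoImplicit false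

noncomputable section

namespace Pool.Agent.Results.MP_8be4c0_mp.FasterThanPowers

open MeasureTheory Pool.Agent.H5R2.ON Pool.Agent.H717R2.ON3 Pool.Agent.H983R2.ONJ
open Pool.Agent.Y13.QM Pool.Agent.U153
open Pool.Agent.Results.MP_8be4c0_mp.MassLowerBound (cJ corr_eq)

/-- **Decay at moderate distances.** Let `J` be any ferromagnetic, exponentially decaying coupling
on `ℤ²`. There are `c, C > 0` such that for all `N ≥ 3` and `β > 0`, on every torus and in every
infinite volume limit, the spin correlation at a distance `r` with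
`C (1 + β) log (2 + β) ≤ log r` is at most `exp (-c min (log r, N (log r)² / (1 + β²)))`. -/
theorem result (J : ℤ × ℤ → ℝ) (hJ : Admissible J) :
    ∃ c C : ℝ, 0 < c ∧ 0 < C ∧ ∀ N : ℕ, 3 ≤ N → ∀ β : ℝ, 0 < β →
      (∀ (L : ℕ) [NeZero L] (x y : Tor L),
        C * ((1 + β) * Real.log (2 + β)) ≤ Real.log (tnorm (x - y)) →
        |corr N L J β x y| ≤ Real.exp (-(c * min (Real.log (tnorm (x - y)))
          (N / (1 + β ^ 2) * Real.log (tnorm (x - y)) ^ 2)))) ∧
      ∀ G : ℤ × ℤ → ℝ, IsLimitCorr N J β G → ∀ x : ℤ × ℤ,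
        C * ((1 + β) * Real.log (2 + β)) ≤ Real.log (znorm x) →
        |G x| ≤ Real.exp (-(c * min (Real.log (znorm x))
          (N / (1 + β ^ 2) * Real.log (znorm x) ^ 2))) := by
  obtain ⟨A, a, ha, hJd⟩ := hJ.decay
  obtain ⟨A', hA', hper⟩ := Jper_le ha hJd
  obtain ⟨γ, C, hγ, hC, hdec⟩ := nv_corS (a / 2) (by linarith)
  obtain ⟨c, hc⟩ : ∃ c : ℝ, c = γ / (1 + A' ^ 2) := ⟨_, rfl⟩
  have hA2 : 0 < 1 + A' ^ 2 := by positivity
  have hc0 : 0 < c := by rw [hc]; positivity
  obtain ⟨B, hB⟩ : ∃ B : ℝ, B = A' + 1 := ⟨_, rfl⟩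
  have hB0 : 0 < B := by linarith
  refine ⟨c, C * ((1 + B) * (1 + 2 * B)), hc0, by positivity, ?_⟩
  intro N hN β hβ
  have hN0 : N ≠ 0 := by omega
  have hl2 : 0.69 < Real.log 2 := by have := Real.log_two_gt_d9; linarith
  have hl : Real.log 2 ≤ Real.log (2 + β) := Real.log_le_log (by norm_num) (by linarith)
  have hl0 : 0 < Real.log (2 + β) := by linarith
  -- the tori
  have htor : ∀ (L : ℕ) [NeZero L] (x y : Tor L),
        C * ((1 + B) * (1 + 2 * B)) * ((1 + β) * Real.log (2 + β)) ≤
          Real.log (tnorm (x - y)) →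
        |corr N L J β x y| ≤ Real.exp (-(c * min (Real.log (tnorm (x - y)))
          (N / (1 + β ^ 2) * Real.log (tnorm (x - y)) ^ 2))) := by
    intro L _ x y hT
    have hE : ExpC (β * A') (a / 2) (cJ L J β) := by
      intro e
      unfold cJ
      split_ifs with h
      · exact ⟨le_rfl, mul_nonneg (by positivity) (Real.exp_pos _).le⟩
      · refine ⟨mul_nonneg hβ.le (Jper_nonneg hJ.nonneg (sub_ne_zero.2 h)), ?_⟩
        rw [mul_assoc, tnorm_sub_comm]
        exact mul_le_mul_of_nonneg_left (hper L _) hβ.le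
    have hT0 : 0 < Real.log (tnorm (x - y)) := by
      refine lt_of_lt_of_le ?_ hT
      positivity
    have hr : 0 < tnorm (x - y) := by
      by_contra hcon
      have h1 : tnorm (x - y) = 0 := le_antisymm (not_lt.1 hcon) (tnorm_nonneg _)
      rw [h1, Real.log_zero] at hT0
      exact lt_irrefl _ hT0
    have h1 : (1 + β * A') * Real.log (2 + β * A') ≤
        (1 + B) * (1 + 2 * B) * ((1 + β) * Real.log (2 + β)) := by
      have h2 := nv_XK β B hβ.le hB0
      refine le_trans ?_ h2
      have h3 : β * A' ≤ β * B := mul_le_mul_of_nonneg_left (by linarith) hβ.le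
      have h4 : 0 ≤ β * A' := by positivity
      exact mul_le_mul (by linarith) (Real.log_le_log (by linarith) (by linarith))
        (Real.log_nonneg (by linarith)) (by positivity)
    have h2 : C * ((1 + β * A') * Real.log (2 + β * A')) ≤ Real.log (tnorm (x - y)) := by
      refine le_trans (mul_le_mul_of_nonneg_left h1 (by linarith)) ?_
      linarith
    rw [corr_eq]
    refine (hdec (β * A') (by positivity) N hN L (cJ L J β) hE x y hr h2).trans
      (Real.exp_le_exp.2 (neg_le_neg ?_))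
    obtain ⟨T, hTe⟩ : ∃ T : ℝ, T = Real.log (tnorm (x - y)) := ⟨_, rfl⟩
    rw [← hTe] at hT0 ⊢
    have h3 : min T (N / (1 + β ^ 2) * T ^ 2) ≤
        (1 + A' ^ 2) * min T (N / (1 + (β * A') ^ 2) * T ^ 2) := by
      rw [mul_min_of_nonneg _ _ hA2.le]
      refine min_le_min ?_ ?_
      · nlinarith [sq_nonneg A']
      · rw [← mul_assoc]
        refine mul_le_mul_of_nonneg_right ?_ (sq_nonneg T)
        rw [← mul_div_assoc, div_le_div_iff₀ (by positivity) (by positivity)]
        have h4 : 1 + (β * A') ^ 2 ≤ (1 + A' ^ 2) * (1 + β ^ 2) := by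
          nlinarith [sq_nonneg A', sq_nonneg β]
        have h5 := mul_le_mul_of_nonneg_left h4 (Nat.cast_nonneg (α := ℝ) N)
        linarith
    have h4 : γ = c * (1 + A' ^ 2) := by rw [hc]; field_simp
    rw [h4, mul_assoc]
    exact mul_le_mul_of_nonneg_left h3 hc0.le
  refine ⟨fun L _ x y => htor L x y, ?_⟩
  intro G hG x hT
  obtain ⟨l, hl', hlim⟩ := hG
  refine le_of_tendsto (hlim x).abs ?_
  filter_upwards [hl'.eventually_ge_atTop (2 * (x.1.natAbs + x.2.natAbs))] with n hn
  have hz : tnorm ((0 : Tor (l n + 1)) - (((x.1 : ZMod (l n + 1)), (x.2 : ZMod (l n + 1))) :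
      Tor (l n + 1))) = znorm x := by
    rw [zero_sub, tnorm_neg]
    have h1 : |x.1| * 2 < ((l n + 1 : ℕ) : ℤ) := by
      have : (|x.1| : ℤ) = x.1.natAbs := (Int.natCast_natAbs x.1).symm
      rw [this]; push_cast; omega
    have h2 : |x.2| * 2 < ((l n + 1 : ℕ) : ℤ) := by
      have : (|x.2| : ℤ) = x.2.natAbs := (Int.natCast_natAbs x.2).symm
      rw [this]; push_cast; omega
    have := tnorm_cast (L := l n + 1) x.1 x.2 (by exact_mod_cast h1) (by exact_mod_cast h2)
    rw [this]
    rfl
  have h1 := htor (l n + 1) 0 ((x.1 : ZMod (l n + 1)), (x.2 : ZMod (l n + 1)))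
    (by rw [hz]; exact hT)
  rwa [hz] at h1

end Pool.Agent.Results.MP_8be4c0_mp.FasterThanPowers
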