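import Pool.Agent.H983R2.ONJ.Model
import Pool.Agent.Results.MP_8be4c0_mp.MassLowerBound
import Pool.Agent.U153.Nv6

/-!
# The mass of the two-dimensional N-vector models: dependence on the number of components

For every exponentially decaying ferromagnetic coupling `J` on `ℤ²` there is a constant `C` such
that for every `N ≥ 3` and every `β > 0` the mass is at least
`exp (-C (1 + β² / N + (1 + β) log (2 + β² / N)))`.
-/

set_option autoImplicit false

noncomputable section

namespace Pool.Agent.Results.MP_8be4c0_mp.MassManyComponents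

open MeasureTheory Pool.Agent.H5R2.ON Pool.Agent.H717R2.ON3 Pool.Agent.H983R2.ONJ
open Pool.Agent.Y13.QM Pool.Agent.U153
open Pool.Agent.Results.MP_8be4c0_mp.MassLowerBound (cJ corr_eq tsum_exp_znorm_le)

/-- the exponent for a multiple of the coupling -/
theorem XN_mul (A K : ℝ) (N : ℕ) (hA : 0 ≤ A) (hK : 0 ≤ K) :
    XN (A * K) N ≤ (1 + K ^ 2) * (1 + K) * (1 + 2 * K ^ 2) * XN A N := by
  obtain ⟨q, hq⟩ : ∃ q : ℝ, q = A ^ 2 / N := ⟨_, rfl⟩
  have hq0 : 0 ≤ q := by rw [hq]; positivity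
  have hl2 : 0.69 < Real.log 2 := by have := Real.log_two_gt_d9; linarith
  have hl : Real.log 2 ≤ Real.log (2 + q) := Real.log_le_log (by norm_num) (by linarith)
  have hl0 : 0 < Real.log (2 + q) := by linarith
  have hqK : (A * K) ^ 2 / N = K ^ 2 * q := by rw [hq]; ring
  unfold XN
  rw [hqK, ← hq]
  have h1 : Real.log (2 + K ^ 2 * q) ≤ Real.log (2 + q) + Real.log (1 + K ^ 2) := by
    rw [← Real.log_mul (by positivity) (by positivity)]
    refine Real.log_le_log (by positivity) ?_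
    nlinarith [sq_nonneg K]
  have h2 : Real.log (1 + K ^ 2) ≤ K ^ 2 := by
    have := Real.log_le_sub_one_of_pos (show 0 < 1 + K ^ 2 by positivity)
    linarith
  have h3 : Real.log (2 + K ^ 2 * q) ≤ (1 + 2 * K ^ 2) * Real.log (2 + q) := by
    nlinarith [sq_nonneg K]
  have h4 : 0 ≤ Real.log (2 + K ^ 2 * q) :=
    Real.log_nonneg (by nlinarith [mul_nonneg (sq_nonneg K) hq0])
  have h5 : 1 + A * K ≤ (1 + K) * (1 + A) := by nlinarith
  have h6 : (1 + A * K) * Real.log (2 + K ^ 2 * q) ≤ ((1 + K) * (1 + A)) *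
      ((1 + 2 * K ^ 2) * Real.log (2 + q)) := mul_le_mul h5 h3 h4 (by positivity)
  have h7 : 1 + K ^ 2 * q ≤ (1 + K ^ 2) * (1 + q) := by nlinarith [sq_nonneg K]
  have h8 : (1 + K ^ 2) * (1 + q) ≤ (1 + K ^ 2) * (1 + K) * (1 + 2 * K ^ 2) * (1 + q) := by
    refine mul_le_mul_of_nonneg_right ?_ (by linarith)
    have h9 : 1 ≤ (1 + K) * (1 + 2 * K ^ 2) := by
      nlinarith [sq_nonneg K, mul_nonneg hK (sq_nonneg K)]
    nlinarith [sq_nonneg K]
  have h9 : ((1 + K) * (1 + A)) * ((1 + 2 * K ^ 2) * Real.log (2 + q)) ≤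
      (1 + K ^ 2) * (1 + K) * (1 + 2 * K ^ 2) * ((1 + A) * Real.log (2 + q)) := by
    have h10 : 0 ≤ (1 + K) * (1 + 2 * K ^ 2) * ((1 + A) * Real.log (2 + q)) := by positivity
    nlinarith [sq_nonneg K]
  linarith

/-- **Lower bound for the mass, uniform in the number of components.** Let `J` be any
ferromagnetic, exponentially decaying coupling on `ℤ²`. There is `C` such that for all `N ≥ 3` and
`β > 0` the spin correlations on every torus and in every infinite volume limit decay at rate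
`exp (-C (1 + β²/N + (1 + β) log (2 + β²/N)))`; the susceptibility of every such limit is at most
the inverse of this and its mass is at least this. -/
theorem result (J : ℤ × ℤ → ℝ) (hJ : Admissible J) :
    ∃ C : ℝ, 0 < C ∧ ∀ N : ℕ, 3 ≤ N → ∀ β : ℝ, 0 < β →
      (∀ (L : ℕ) [NeZero L] (x y : Tor L), |corr N L J β x y| ≤
        Real.exp 2 * Real.exp (-Real.exp (-(C * (1 + β ^ 2 / N +
          (1 + β) * Real.log (2 + β ^ 2 / N)))) * tnorm (x - y))) ∧
      ∀ G : ℤ × ℤ → ℝ, IsLimitCorr N J β G →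
        (∀ x, |G x| ≤ Real.exp 2 * Real.exp (-Real.exp (-(C * (1 + β ^ 2 / N +
          (1 + β) * Real.log (2 + β ^ 2 / N)))) * znorm x)) ∧
        Summable G ∧ ∑' x, G x ≤ Real.exp (C * (1 + β ^ 2 / N +
          (1 + β) * Real.log (2 + β ^ 2 / N))) ∧
        ∀ μ : ℝ, (∀ n : ℕ, 0 < G (n, 0)) →
          Filter.Tendsto (fun n : ℕ => -(1 / (n : ℝ)) * Real.log (G (n, 0))) Filter.atTop
            (nhds μ) → Real.exp (-(C * (1 + β ^ 2 / N +
          (1 + β) * Real.log (2 + β ^ 2 / N)))) ≤ μ := by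
  obtain ⟨A, a, ha, hJd⟩ := hJ.decay
  obtain ⟨A', hA', hper⟩ := Jper_le ha hJd
  obtain ⟨C0, hC0, hdec⟩ := corS_decayN (a / 2) (by linarith)
  obtain ⟨B, hB⟩ : ∃ B : ℝ, B = (1 + A' ^ 2) * (1 + A') * (1 + 2 * A' ^ 2) := ⟨_, rfl⟩
  have hB1 : 1 ≤ B := by
    rw [hB]
    have h1 : 1 ≤ 1 + A' ^ 2 := by nlinarith [sq_nonneg A']
    have h2 : 1 ≤ 1 + 2 * A' ^ 2 := by nlinarith [sq_nonneg A']
    have h3 : 1 ≤ (1 + A' ^ 2) * (1 + A') := by nlinarith
    nlinarith
  obtain ⟨C1, hC1⟩ : ∃ C1 : ℝ, C1 = C0 * B := ⟨_, rfl⟩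
  have hC1' : 1 ≤ C1 := by
    rw [hC1]
    nlinarith
  refine ⟨2 * C1 + 8, by linarith, ?_⟩
  intro N hN β hβ
  have hN0 : N ≠ 0 := by omega
  obtain ⟨hX1, -⟩ := XN_ge hβ.le N
  have hXd : 1 + β ^ 2 / N + (1 + β) * Real.log (2 + β ^ 2 / N) = XN β N := rfl
  rw [hXd]
  obtain ⟨X, hX⟩ : ∃ X : ℝ, X = XN β N := ⟨_, rfl⟩
  rw [← hX] at hX1 ⊢
  -- the rate for the coupling constant `β A'`
  obtain ⟨b, hb⟩ : ∃ b : ℝ, b = Real.exp (-(C1 * X)) := ⟨_, rfl⟩
  have hb0 : 0 < b := by rw [hb]; exact Real.exp_pos _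
  have hb1 : b ≤ 1 := by
    rw [hb]
    refine Real.exp_le_one_iff.2 ?_
    nlinarith
  have hrate : b ≤ Real.exp (-(C0 * XN (β * A') N)) := by
    rw [hb]
    refine Real.exp_le_exp.2 (neg_le_neg ?_)
    rw [hC1, mul_assoc]
    refine mul_le_mul_of_nonneg_left ?_ (by linarith)
    rw [hX, hB]
    exact XN_mul β A' N hβ.le hA'
  have htor : ∀ (L : ℕ) [NeZero L] (x y : Tor L), 0 ≤ corr N L J β x y ∧
      |corr N L J β x y| ≤ Real.exp 2 * Real.exp (-b * tnorm (x - y)) := by
    intro L _ x y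
    have hE : ExpC (β * A') (a / 2) (cJ L J β) := by
      intro e
      unfold cJ
      split_ifs with h
      · exact ⟨le_rfl, mul_nonneg (by positivity) (Real.exp_pos _).le⟩
      · refine ⟨mul_nonneg hβ.le (Jper_nonneg hJ.nonneg (sub_ne_zero.2 h)), ?_⟩
        rw [mul_assoc, tnorm_sub_comm]
        exact mul_le_mul_of_nonneg_left (hper L _) hβ.le
    have h0 : 0 ≤ corr N L J β x y := by
      rw [corr_eq]
      exact corS_nonneg hN0 (fun e => (hE e).1) x y
    refine ⟨h0, ?_⟩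
    rw [abs_of_nonneg h0, corr_eq]
    refine (hdec (β * A') (by positivity) N hN L (cJ L J β) hE x y).trans ?_
    refine mul_le_mul_of_nonneg_left (Real.exp_le_exp.2 ?_) (Real.exp_pos _).le
    have := tnorm_nonneg (x - y)
    nlinarith
  obtain ⟨b', hb'⟩ : ∃ b' : ℝ, b' = Real.exp (-((2 * C1 + 8) * X)) := ⟨_, rfl⟩
  have hb'b : b' ≤ b := by
    rw [hb', hb]
    refine Real.exp_le_exp.2 (neg_le_neg ?_)
    nlinarith
  rw [← hb']
  refine ⟨?_, ?_⟩
  · intro L _ x y
    refine (htor L x y).2.trans ?_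
    refine mul_le_mul_of_nonneg_left (Real.exp_le_exp.2 ?_) (Real.exp_pos _).le
    have := tnorm_nonneg (x - y)
    nlinarith
  intro G hG
  obtain ⟨l, hl, hlim⟩ := hG
  have hbound : ∀ x, |G x| ≤ Real.exp 2 * Real.exp (-b * znorm x) := by
    intro x
    refine le_of_tendsto (hlim x).abs ?_
    filter_upwards [hl.eventually_ge_atTop (2 * (x.1.natAbs + x.2.natAbs))] with n hn
    refine (htor (l n + 1) _ _).2.trans (le_of_eq ?_)
    congr 2
    rw [zero_sub, tnorm_neg]
    have h1 : |x.1| * 2 < ((l n + 1 : ℕ) : ℤ) := by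
      have : (|x.1| : ℤ) = x.1.natAbs := (Int.natCast_natAbs x.1).symm
      rw [this]; push_cast; omega
    have h2 : |x.2| * 2 < ((l n + 1 : ℕ) : ℤ) := by
      have : (|x.2| : ℤ) = x.2.natAbs := (Int.natCast_natAbs x.2).symm
      rw [this]; push_cast; omega
    have := tnorm_cast (L := l n + 1) x.1 x.2 (by exact_mod_cast h1) (by exact_mod_cast h2)
    rw [this]
    rfl
  have hsum : Summable G := by
    refine Summable.of_norm_bounded (g := fun x => Real.exp 2 * Real.exp (-b * znorm x))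
      ((summable_exp_znorm b hb0).mul_left _) fun x => ?_
    rw [Real.norm_eq_abs]
    exact hbound x
  refine ⟨?_, hsum, ?_, ?_⟩
  · intro x
    refine (hbound x).trans ?_
    refine mul_le_mul_of_nonneg_left (Real.exp_le_exp.2 ?_) (Real.exp_pos _).le
    have : 0 ≤ znorm x := Real.sqrt_nonneg _
    nlinarith
  · have h1 : ∑' x, G x ≤ ∑' x : ℤ × ℤ, Real.exp 2 * Real.exp (-b * znorm x) :=
      hsum.tsum_le_tsum (fun x => (le_abs_self _).trans (hbound x))
        ((summable_exp_znorm b hb0).mul_left _)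
    rw [tsum_mul_left] at h1
    have h2 := tsum_exp_znorm_le hb0 hb1
    have h3 : Real.exp 2 * ∑' x : ℤ × ℤ, Real.exp (-b * znorm x) ≤ Real.exp 2 * (64 / b ^ 2) :=
      mul_le_mul_of_nonneg_left h2 (Real.exp_pos _).le
    refine (h1.trans h3).trans ?_
    have h4 : (64 : ℝ) ≤ Real.exp 6 := by
      have h5 : (2 : ℝ) ≤ Real.exp 1 := by
        have := Real.add_one_le_exp (1 : ℝ)
        linarith
      have h6 : Real.exp 6 = Real.exp 1 ^ 6 := by
        rw [← Real.exp_nat_mul]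
        norm_num
      rw [h6]
      calc (64 : ℝ) = 2 ^ 6 := by norm_num
        _ ≤ Real.exp 1 ^ 6 := pow_le_pow_left₀ (by norm_num) h5 6
    have h7 : 64 / b ^ 2 = 64 * Real.exp (2 * (C1 * X)) := by
      rw [hb, ← Real.exp_nat_mul, div_eq_mul_inv, ← Real.exp_neg]
      congr 2
      push_cast
      ring
    rw [h7]
    calc Real.exp 2 * (64 * Real.exp (2 * (C1 * X)))
        ≤ Real.exp 2 * (Real.exp 6 * Real.exp (2 * (C1 * X))) := by
          refine mul_le_mul_of_nonneg_left ?_ (Real.exp_pos _).le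
          exact mul_le_mul_of_nonneg_right h4 (Real.exp_pos _).le
      _ = Real.exp (8 + 2 * (C1 * X)) := by
          rw [← Real.exp_add, ← Real.exp_add]
          congr 1
          ring
      _ ≤ Real.exp ((2 * C1 + 8) * X) := by
          refine Real.exp_le_exp.2 ?_
          nlinarith
  · intro μ hpos hμ
    refine hb'b.trans ?_
    have hlow : ∀ᶠ n : ℕ in Filter.atTop, b - 2 / n ≤
        -(1 / (n : ℝ)) * Real.log (G (n, 0)) := by
      filter_upwards [Filter.eventually_gt_atTop 0] with n hn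
      have hn' : (0 : ℝ) < n := by exact_mod_cast hn
      have h1 := hbound (n, 0)
      rw [abs_of_pos (hpos n)] at h1
      have h2 : znorm ((n : ℤ), (0 : ℤ)) = n := by
        unfold znorm
        simp
      rw [h2] at h1
      have h3 : Real.log (G (n, 0)) ≤ 2 + -b * n := by
        have := Real.log_le_log (hpos n) h1
        rw [← Real.exp_add, Real.log_exp] at this
        exact this
      have h4 : b - 2 / n = -(1 / (n : ℝ)) * (2 + -b * n) := by
        field_simp
        ring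
      rw [h4]
      have h5 : (0 : ℝ) < 1 / n := by positivity
      nlinarith
    have hlim2 : Filter.Tendsto (fun n : ℕ => b - 2 / (n : ℝ)) Filter.atTop
        (nhds (b - 0)) :=
      tendsto_const_nhds.sub (tendsto_const_div_atTop_nhds_zero_nat _)
    rw [sub_zero] at hlim2
    exact le_of_tendsto_of_tendsto hlim2 hμ hlow

end Pool.Agent.Results.MP_8be4c0_mp.MassManyComponents
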